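import Pool.Agent.K1H16.MC.Out

set_option autoImplicit false

/-! The boundary data are unchanged. -/

namespace Pool.Agent.K1H16.MC

open MeasureTheory Filter Topology Pool.Agent.K1H62.MC
open scoped ENNReal ContDiff

noncomputable section

/-- the unit normal of the level sets of `s` -/
def nn (i : Fin 3) (y : E) : ℝ := pd i s y / Real.sqrt (∑ j, pd j s y ^ 2)

lemma pd_sub_const' (i : Fin 3) (f : E → ℝ) (c : ℝ) (y : E) : pd i (fun z => f z - c) y = pd i f y := by
  unfold pd
  rw [fderiv_sub_const]

lemma nor_eu (i : Fin 3) (y : E) : nor eu (fun z => s z - 4) i y = nn i y := by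
  unfold nor nn
  rw [nsq_eu]
  simp only [pd_sub_const']
  congr 1
  unfold eu
  rw [inv_one, Finset.sum_eq_single i]
  · rw [Matrix.one_apply_eq, one_mul]
  · intro j _ hj
    rw [Matrix.one_apply_ne hj.symm, zero_mul]
  · intro h; exact absurd (Finset.mem_univ i) h

lemma sum_pd_pos {f : E → ℝ} {y : E} (h : fderiv ℝ f y ≠ 0) : 0 < ∑ j, pd j f y ^ 2 := by
  by_contra hneg
  push Not at hneg
  have h0 : ∑ j, pd j f y ^ 2 = 0 := le_antisymm hneg (Finset.sum_nonneg fun j _ => sq_nonneg _)
  have h1 : ∀ j, pd j f y = 0 := by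
    intro j
    have := (Finset.sum_eq_zero_iff_of_nonneg (fun j _ => sq_nonneg (pd j f y))).1 h0 j
      (Finset.mem_univ j)
    exact pow_eq_zero_iff (two_ne_zero) |>.1 this
  apply h
  ext v
  have hv : v = ∑ i, v i • EuclideanSpace.single i (1 : ℝ) := by
    ext k
    simp [Finset.sum_apply, Pi.single_apply]
  rw [hv, map_sum]
  simp only [map_smul, smul_eq_mul]
  have h2 : ∀ i, fderiv ℝ f y (EuclideanSpace.single i (1 : ℝ)) = 0 := h1
  simp [h2]

theorem bdy : S_BDY := by
  intro hgeo hpot F hF K t hK _ htK x hx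
  obtain ⟨hu, -, -, hu0, -, hu1⟩ := hpot
  obtain ⟨-, -, -, -, -, -, -, hs, hs0, -⟩ := hgeo
  have hxF : x ∉ tsupport F := by
    intro h
    have : 4 < s x := hF.2.2 h
    linarith
  set U : Set E := {x | 3 < s x} ∩ (tsupport F)ᶜ with hU
  have hUo : IsOpen U := (open_s 3).inter (isClosed_tsupport F).isOpen_compl
  have hxU : x ∈ U := ⟨show 3 < s x by linarith, hxF⟩
  have hx2 : 2 < s x := by linarith
  have hphx : ph K t x = 1 := by
    unfold ph; rw [hu0 x hx]; ring
  set b : E → ℝ := fun y => 2 * Real.log (ph K t y) with hb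
  have hbx : b x = 0 := by simp only [hb, hphx, Real.log_one, mul_zero]
  have e0 : ∀ i, ∀ y ∈ U, al F K t i y = b y := by
    intro i y hy
    simp only [al, hb, aa_zero hy.2 i, mul_zero, zero_add]
  have hphd : DifferentiableAt ℝ (ph K t) x := diff_of (open_s 2) (ph_smooth hu K t) hx2
  have hph0 : ph K t x ≠ 0 := by rw [hphx]; exact one_ne_zero
  have hlog : DifferentiableAt ℝ (fun z => Real.log (ph K t z)) x := hphd.log hph0
  have hbd : DifferentiableAt ℝ b x := hlog.const_mul 2
  have hpb : ∀ i, pd i b x = 0 := by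
    intro i
    show pd i (fun z => 2 * Real.log (ph K t z)) x = 0
    rw [pd_const_mul i 2 hlog, pd_log i hphd hph0, pd_ph hu K t i hx2, hu0 x hx]
    ring
  refine ⟨?_, ?_⟩
  · unfold gm
    rw [← Matrix.diagonal_one]
    congr 1
    funext i
    rw [e0 i x hxU, hbx]
    simp
  · -- the mean curvature
    have hvol : ∀ y ∈ U, vol (gm F K t) y = Real.exp (3 * b y) := by
      intro y hy
      unfold gm
      rw [vol_diag (al F K t) y, e0 0 y hy, e0 1 y hy, e0 2 y hy]
      congr 1; ring
    have hnsq : ∀ y ∈ U, nsq (gm F K t) (fun z => s z - 4) y =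
        Real.exp (-b y) ^ 2 * ∑ j, pd j s y ^ 2 := by
      intro y hy
      unfold gm
      rw [nsq_diag (al F K t), Finset.mul_sum]
      refine Finset.sum_congr rfl fun i _ => ?_
      rw [e0 i y hy, pd_sub_const', ← Real.exp_nat_mul]
      congr 2
      push_cast; ring
    have hnor : ∀ i, ∀ y ∈ U, nor (gm F K t) (fun z => s z - 4) i y =
        Real.exp (-b y) * nn i y := by
      intro i y hy
      unfold nor nn
      rw [hnsq y hy, Real.sqrt_mul (sq_nonneg _), Real.sqrt_sq (Real.exp_pos _).le]
      have h1 : ∑ j, (gm F K t y)⁻¹ i j * pd j (fun z => s z - 4) y =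
          Real.exp (-b y) ^ 2 * pd i s y := by
        unfold gm
        rw [inv_diag fun i => al F K t i y, Finset.sum_eq_single i]
        · rw [Matrix.diagonal_apply_eq, e0 i y hy, pd_sub_const', ← Real.exp_nat_mul]
          congr 2
          push_cast; ring
        · intro j _ hj
          rw [Matrix.diagonal_apply_ne _ hj.symm]; ring
        · intro h; exact absurd (Finset.mem_univ i) h
      rw [h1]
      have h2 := (Real.exp_pos (-b y)).ne'
      rw [pow_two, mul_assoc, mul_div_mul_left _ _ h2, mul_div_assoc]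
    have hprod : ∀ i, Set.EqOn (fun y => vol (gm F K t) y * nor (gm F K t) (fun z => s z - 4) i y)
        (fun y => Real.exp (2 * b y) * nn i y) U := by
      intro i y hy
      simp only
      rw [hvol y hy, hnor i y hy, ← mul_assoc, ← Real.exp_add]
      congr 2; ring
    have hsd : ∀ j, DifferentiableAt ℝ (pd j s) x := fun j =>
      diff_of (open_s 2) (pd_smooth (open_s 2) hs j) hx2
    have hpos : 0 < ∑ j, pd j s x ^ 2 := sum_pd_pos (hs0 x hx2)
    have hsum : DifferentiableAt ℝ (fun y => ∑ j, pd j s y ^ 2) x := by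
      apply DifferentiableAt.fun_sum
      intro j _
      exact (hsd j).pow 2
    have hnd : ∀ i, DifferentiableAt ℝ (nn i) x := by
      intro i
      have h3 : DifferentiableAt ℝ (fun y => Real.sqrt (∑ j, pd j s y ^ 2)) x := hsum.sqrt hpos.ne'
      have h4 : DifferentiableAt ℝ (fun y => (Real.sqrt (∑ j, pd j s y ^ 2))⁻¹) x :=
        h3.inv (Real.sqrt_pos.2 hpos).ne'
      have h5 : nn i = fun y => pd i s y * (Real.sqrt (∑ j, pd j s y ^ 2))⁻¹ := by
        funext y
        unfold nn
        rw [div_eq_mul_inv]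
      rw [h5]
      exact (hsd i).mul h4
    have h2b : DifferentiableAt ℝ (fun y => 2 * b y) x := hbd.const_mul 2
    have hpd : ∀ i, pd i (fun y => vol (gm F K t) y * nor (gm F K t) (fun z => s z - 4) i y) x =
        pd i (nn i) x := by
      intro i
      rw [pd_congr_set hUo (hprod i) hxU i, pd_mul i h2b.exp (hnd i), pd_exp i h2b,
        pd_const_mul i 2 hbd, hpb i, hbx]
      simp
    have heu : ∀ i, pd i (fun y => vol eu y * nor eu (fun z => s z - 4) i y) x = pd i (nn i) x := by
      intro i
      congr 1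
      funext y
      rw [vol_eu, nor_eu, one_mul]
    unfold Hm
    simp only [hpd, heu]
    rw [hvol x hxU, hbx, vol_eu]
    simp

end

end Pool.Agent.K1H16.MC
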