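import Pool.Agent.K1H62.MC.Plan

set_option autoImplicit false

/-! The scalar curvature outside the support of the deformation; smoothness of the exponents. -/

namespace Pool.Agent.K1H16.MC

open MeasureTheory Filter Topology Pool.Agent.K1H62.MC
open scoped ENNReal ContDiff

noncomputable section

lemma aa_smooth {F : E → ℝ} (hF : ContDiff ℝ ∞ F) (i : Fin 3) : ContDiff ℝ ∞ (aa F i) := by
  have h0 : ContDiff ℝ ∞ (pd 0 (pd 0 F)) := pd_smooth' (pd_smooth' hF 0) 0
  have h1 : ContDiff ℝ ∞ (pd 1 (pd 1 F)) := pd_smooth' (pd_smooth' hF 1) 1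
  fin_cases i
  · exact ((h0.add h1).neg).div_const 2
  · exact (h0.add h1).div_const 2
  · exact (h1.sub h0).div_const 2

lemma aa_zero {F : E → ℝ} {x : E} (hx : x ∉ tsupport F) (i : Fin 3) : aa F i x = 0 := by
  have h0 : pd 0 (pd 0 F) x = 0 := pd_zero_of_notMem 0 fun h => hx (pd_tsupport 0 h)
  have h1 : pd 1 (pd 1 F) x = 0 := pd_zero_of_notMem 1 fun h => hx (pd_tsupport 1 h)
  fin_cases i <;> simp [aa, h0, h1]

lemma ph_smooth (hu : ContDiffOn ℝ ∞ u {x | 2 < s x}) (K t : ℝ) :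
    ContDiffOn ℝ ∞ (ph K t) {x | 2 < s x} :=
  contDiffOn_const.sub (contDiffOn_const.mul (hu.pow 2))

lemma ph_pos {K t : ℝ} (hK : 0 < K) (ht : K * t ^ 2 < 1 / 2) {x : E} (hu : |u x| < 1) :
    1 / 2 < ph K t x := by
  unfold ph
  have h1 : u x ^ 2 ≤ 1 := by
    rw [← sq_abs]
    nlinarith [abs_nonneg (u x)]
  have h2 : 0 ≤ K * t ^ 2 := by positivity
  nlinarith [mul_le_mul_of_nonneg_left h1 h2]

theorem sm : S_SM := by
  intro hpot F hF K t hK ht i
  obtain ⟨hu, -, -, -, -, hu1⟩ := hpot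
  have hsub : {x : E | 3 < s x} ⊆ {x | 2 < s x} := fun x (hx : 3 < s x) => show 2 < s x by linarith
  have h1 : ContDiffOn ℝ ∞ (fun x => Real.log (ph K t x)) {x | 3 < s x} := by
    refine ((ph_smooth hu K t).mono hsub).log ?_
    intro x hx
    have := ph_pos hK ht (hu1 x hx)
    linarith
  exact (contDiffOn_const.mul (aa_smooth hF.1 i).contDiffOn).add (contDiffOn_const.mul h1)

lemma pd_ph (hu : ContDiffOn ℝ ∞ u {x | 2 < s x}) (K t : ℝ) (j : Fin 3) {x : E} (hx : 2 < s x) :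
    pd j (ph K t) x = -(K * t ^ 2 * (2 * u x * pd j u x)) := by
  have hd : DifferentiableAt ℝ u x := diff_of (open_s 2) hu hx
  have h1 : pd j (ph K t) x = pd j (fun y => 1 - K * t ^ 2 * u y ^ 2) x := rfl
  have hd2 : DifferentiableAt ℝ (fun y => u y ^ 2) x := hd.pow 2
  have hd3 : DifferentiableAt ℝ (fun y => K * t ^ 2 * u y ^ 2) x := hd2.const_mul _
  rw [h1, pd_sub j (differentiableAt_const _) hd3, pd_const, pd_const_mul j _ hd2,
    pd_pow j 2 hd]
  push_cast
  ring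

theorem out : S_OUT := by
  intro hpot F K t hK ht x hx hxF
  obtain ⟨hu, hharm, -, -, -, hu1⟩ := hpot
  set U : Set E := {x | 3 < s x} ∩ (tsupport F)ᶜ with hU
  have hUo : IsOpen U := (open_s 3).inter (isClosed_tsupport F).isOpen_compl
  have hxU : x ∈ U := ⟨show 3 < s x by linarith, hxF⟩
  have hx3 : x ∈ {x : E | 3 < s x} := hxU.1
  have hx2 : 2 < s x := by linarith
  have h23 : ∀ y : E, y ∈ {x : E | 3 < s x} → 2 < s y := fun y (hy : 3 < s y) => by linarith
  have hph : ∀ y : E, y ∈ {x : E | 3 < s x} → ph K t y ≠ 0 := by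
    intro y hy
    have := ph_pos hK ht (hu1 y hy)
    linarith
  have hphd : ∀ y : E, y ∈ {x : E | 3 < s x} → DifferentiableAt ℝ (ph K t) y := fun y hy =>
    diff_of (open_s 2) (ph_smooth hu K t) (h23 y hy)
  have hud : ∀ y : E, y ∈ {x : E | 3 < s x} → DifferentiableAt ℝ u y := fun y hy =>
    diff_of (open_s 2) hu (h23 y hy)
  have hpud : ∀ j, ∀ y : E, y ∈ {x : E | 3 < s x} → DifferentiableAt ℝ (pd j u) y := fun j y hy =>
    diff_of (open_s 2) (pd_smooth (open_s 2) hu j) (h23 y hy)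
  set b : E → ℝ := fun y => 2 * Real.log (ph K t y) with hb
  have e0 : ∀ i, Set.EqOn (al F K t i) b U := by
    intro i y hy
    simp only [al, hb, aa_zero hy.2 i, mul_zero, zero_add]
  have e1 : ∀ i j, Set.EqOn (pd j (al F K t i)) (pd j b) U := fun i j y hy =>
    pd_congr_set hUo (e0 i) hy j
  have e2 : ∀ i j, pd j (pd j (al F K t i)) x = pd j (pd j b) x := fun i j =>
    pd_congr_set hUo (e1 i j) hxU j
  have e1' : ∀ i j, pd j (al F K t i) x = pd j b x := fun i j => e1 i j hxU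
  have e0' : ∀ i, al F K t i x = b x := fun i => e0 i hxU
  -- first derivatives of `b`
  have d1 : ∀ j, Set.EqOn (pd j b) (fun y => (-4 * K * t ^ 2) * ((ph K t y)⁻¹ * (u y * pd j u y)))
      {x | 3 < s x} := by
    intro j y hy
    have hlog : DifferentiableAt ℝ (fun z => Real.log (ph K t z)) y := (hphd y hy).log (hph y hy)
    show pd j (fun z => 2 * Real.log (ph K t z)) y = _
    rw [pd_const_mul j 2 hlog, pd_log j (hphd y hy) (hph y hy), pd_ph hu K t j (h23 y hy)]
    ring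
  have dinv : ∀ j, pd j (fun y => (ph K t y)⁻¹) x = -(ph K t x ^ 2)⁻¹ * pd j (ph K t) x := fun j =>
    pd_comp j (hphd x hx3) (hasDerivAt_inv (hph x hx3))
  have d2 : ∀ j, pd j (pd j b) x = (-4 * K * t ^ 2) * ((ph K t x)⁻¹ * (u x * pd j (pd j u) x +
      pd j u x * pd j u x) + -(ph K t x ^ 2)⁻¹ * pd j (ph K t) x * (u x * pd j u x)) := by
    intro j
    have hinv : DifferentiableAt ℝ (fun y => (ph K t y)⁻¹) x := (hphd x hx3).inv (hph x hx3)
    have hm : DifferentiableAt ℝ (fun y => u y * pd j u y) x := (hud x hx3).mul (hpud j x hx3)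
    have hm2 : DifferentiableAt ℝ (fun y => (ph K t y)⁻¹ * (u y * pd j u y)) x := hinv.mul hm
    rw [pd_congr_set (open_s 3) (d1 j) hx3 j, pd_const_mul j _ hm2, pd_mul j hinv hm,
      pd_mul j (hud x hx3) (hpud j x hx3), dinv j]
  have hexp : Real.exp (-2 * b x) = (ph K t x ^ 4)⁻¹ := by
    have hpos : 0 < ph K t x := by
      have := ph_pos hK ht (hu1 x hx3)
      linarith
    have : -2 * b x = -(4 * Real.log (ph K t x)) := by simp only [hb]; ring
    rw [this, Real.exp_neg, mul_comm, Real.exp_mul, Real.exp_log hpos]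
    norm_num
  have hx0 := hph x hx3
  have hΔ := hharm x hx2
  rw [Fin.sum_univ_three] at hΔ
  have hD1 : ∀ j, pd j b x = (-4 * K * t ^ 2) * ((ph K t x)⁻¹ * (u x * pd j u x)) := fun j =>
    d1 j hx3
  unfold Rd
  simp only [e0', e1', e2, d2, hD1, pd_ph hu K t _ hx2, hexp, Fin.sum_univ_three]
  have hΔ' : pd 2 (pd 2 u) x = -(pd 0 (pd 0 u) x + pd 1 (pd 1 u) x) := by linarith
  rw [hΔ']
  field_simp
  ring

end

end Pool.Agent.K1H16.MC
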